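import Pool.Agent.Q251.CD.Tiny
import Pool.Agent.W184.MV

set_option autoImplicit false

/-! Project CD, lemma job FN. -/

namespace Pool.Agent.Q251.CD

open Pool.Agent.Q276.CD Finset MeasureTheory Filter

/-- complexification -/
noncomputable def toC (A : ArithmeticFunction ℝ) : ArithmeticFunction ℂ := ⟨fun n => (A n : ℂ), by simp⟩

lemma toC_apply (A : ArithmeticFunction ℝ) (n : ℕ) : toC A n = (A n : ℂ) := rfl

lemma toC_mul (A B : ArithmeticFunction ℝ) : toC (A * B) = toC A * toC B := by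
  ext n
  simp only [toC_apply, ArithmeticFunction.mul_apply]
  push_cast
  rfl

lemma Dr_hasSum (A : ArithmeticFunction ℝ) (X : ℕ) (hX : ∀ n : ℕ, X < n → A n = 0) (s : ℂ) :
    LSeriesHasSum (fun n => toC A n) s (Dr A X s) := by
  unfold LSeriesHasSum
  have h1 : Dr A X s = ∑ n ∈ Icc 1 X, LSeries.term (fun n => toC A n) s n := by
    unfold Dr Dp
    refine sum_congr rfl fun n hn => ?_
    rw [mem_Icc] at hn
    rw [LSeries.term_of_ne_zero (by omega), toC_apply, Complex.cpow_neg, div_eq_mul_inv]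
  rw [h1]
  apply hasSum_sum_of_ne_finset_zero
  intro n hn
  rw [mem_Icc, not_and_or] at hn
  rcases Nat.eq_zero_or_pos n with h0 | h0
  · subst h0; exact LSeries.term_zero _ _
  · rcases hn with h | h
    · omega
    · rw [LSeries.term_of_ne_zero (by omega), toC_apply, hX n (by omega)]
      simp

/-- product of Dirichlet polynomials -/
lemma Dr_mul (A B : ArithmeticFunction ℝ) (X Y : ℕ) (hX : ∀ n : ℕ, X < n → A n = 0)
    (hY : ∀ n : ℕ, Y < n → B n = 0) (s : ℂ) :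
    (∀ n : ℕ, X * Y < n → (A * B) n = 0) ∧ Dr (A * B) (X * Y) s = Dr A X s * Dr B Y s := by
  have h0 : ∀ n : ℕ, X * Y < n → (A * B) n = 0 := by
    intro n hn
    rw [ArithmeticFunction.mul_apply]
    apply sum_eq_zero
    intro x hx
    rw [Nat.mem_divisorsAntidiagonal] at hx
    by_cases h1 : X < x.1
    · rw [hX _ h1, zero_mul]
    · by_cases h2 : Y < x.2
      · rw [hY _ h2, mul_zero]
      · exfalso
        rw [not_lt] at h1 h2
        have h3 := Nat.mul_le_mul h1 h2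
        rw [hx.1] at h3
        omega
  refine ⟨h0, ?_⟩
  have h1 := Dr_hasSum (A * B) (X * Y) h0 s
  have h2 := ArithmeticFunction.LSeriesHasSum_mul (Dr_hasSum A X hX s) (Dr_hasSum B Y hY s)
  rw [← toC_mul] at h2
  exact HasSum.unique h1 h2

/-- truncation -/
noncomputable def tr (A : ArithmeticFunction ℝ) (X : ℕ) : ArithmeticFunction ℝ :=
  ⟨fun n => if n ≤ X then A n else 0, by simp⟩

lemma tr_apply (A : ArithmeticFunction ℝ) (X n : ℕ) : tr A X n = if n ≤ X then A n else 0 := rfl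

lemma tr_zero (A : ArithmeticFunction ℝ) (X : ℕ) : ∀ n : ℕ, X < n → tr A X n = 0 := by
  intro n hn
  rw [tr_apply, if_neg (by omega)]

lemma Dr_tr (A : ArithmeticFunction ℝ) (X : ℕ) (s : ℂ) : Dr (tr A X) X s = Dr A X s := by
  unfold Dr Dp
  refine sum_congr rfl fun n hn => ?_
  rw [mem_Icc] at hn
  beta_reduce
  rw [tr_apply, if_pos hn.2]

lemma mul_congr_le {A B A' B' : ArithmeticFunction ℝ} {Z : ℕ} (hA : ∀ n, n ≤ Z → A n = A' n)
    (hB : ∀ n, n ≤ Z → B n = B' n) : ∀ n, n ≤ Z → (A * B) n = (A' * B') n := by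
  intro n hn
  rw [ArithmeticFunction.mul_apply, ArithmeticFunction.mul_apply]
  refine sum_congr rfl fun x hx => ?_
  rw [Nat.mem_divisorsAntidiagonal] at hx
  have hn0 : 0 < n := Nat.pos_of_ne_zero hx.2
  have h1 : x.1 ≤ n := Nat.le_of_dvd hn0 ⟨x.2, hx.1.symm⟩
  have h2 : x.2 ≤ n := Nat.le_of_dvd hn0 ⟨x.1, by rw [← hx.1, mul_comm]⟩
  rw [hA _ (h1.trans hn), hB _ (h2.trans hn)]

/-- real zeta -/
noncomputable def zR : ArithmeticFunction ℝ := ((ArithmeticFunction.zeta : ArithmeticFunction ℕ) : ArithmeticFunction ℝ)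

lemma ZZ_eq (T : ℝ) (s : ℂ) : ZZ T s = Dr zR (NN T) s := by
  unfold ZZ Dr Dp
  refine sum_congr rfl fun n hn => ?_
  rw [mem_Icc] at hn
  beta_reduce
  unfold zR
  rw [ArithmeticFunction.natCoe_apply, ArithmeticFunction.zeta_apply_ne (by omega)]
  simp

/-- the coefficients of the product -/
noncomputable def hF (k T : ℝ) : ArithmeticFunction ℝ :=
  tr zR (NN T) * (tr (aI k (y0 T) (d0 T)) (y2 T) * tr (muM (y0 T) (d0 T) (y1 T) (d1 T)) (y2 T))

lemma hF_eq {k T : ℝ} (h : y2 T ≤ NN T) {n : ℕ} (hn : n ≤ y2 T) :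
    hF k T n = cM k (y0 T) (d0 T) (y1 T) (d1 T) n := by
  unfold hF
  have h1 : ∀ m, m ≤ y2 T → tr zR (NN T) m = zR m := fun m hm => by
    rw [tr_apply, if_pos (hm.trans h)]
  have h2 : ∀ m, m ≤ y2 T → tr (aI k (y0 T) (d0 T)) (y2 T) m = aI k (y0 T) (d0 T) m := fun m hm => by
    rw [tr_apply, if_pos hm]
  have h3 : ∀ m, m ≤ y2 T → tr (muM (y0 T) (d0 T) (y1 T) (d1 T)) (y2 T) m =
      muM (y0 T) (d0 T) (y1 T) (d1 T) m := fun m hm => by
    rw [tr_apply, if_pos hm]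
  rw [mul_congr_le h1 (mul_congr_le h2 h3) n hn]
  unfold cM gM
  have e : zR * (aI k (y0 T) (d0 T) * muM (y0 T) (d0 T) (y1 T) (d1 T)) =
      aI k (y0 T) (d0 T) * (muM (y0 T) (d0 T) (y1 T) (d1 T) * zR) := by ring
  rw [e]
  rfl

lemma FF_eq (k T : ℝ) (s : ℂ) : FF k T s = Dr (hF k T) (NN T * (y2 T * y2 T)) s := by
  have h1 := Dr_mul (tr (aI k (y0 T) (d0 T)) (y2 T)) (tr (muM (y0 T) (d0 T) (y1 T) (d1 T)) (y2 T)) (y2 T) (y2 T)
    (tr_zero _ _) (tr_zero _ _) s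
  have h2 := Dr_mul (tr zR (NN T)) (tr (aI k (y0 T) (d0 T)) (y2 T) * tr (muM (y0 T) (d0 T) (y1 T) (d1 T)) (y2 T))
    (NN T) (y2 T * y2 T) (tr_zero _ _) h1.1 s
  unfold hF
  rw [h2.2, h1.2, Dr_tr, Dr_tr, Dr_tr, ← ZZ_eq]
  unfold FF AA MM
  ring

lemma FD_eq {k T : ℝ} (h : y2 T ≤ NN T) (hy : 1 ≤ y2 T) (s : ℂ) : FF k T s - DL k T s =
    Dp (fun n => if n ≤ y2 T then 0 else ((hF k T n : ℝ) : ℂ)) (NN T * (y2 T * y2 T)) s := by
  have hle : y2 T ≤ NN T * (y2 T * y2 T) := by nlinarith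
  rw [FF_eq]
  unfold DL Dr Dp
  have h1 : ∑ n ∈ Icc 1 (y2 T), ((cM k (y0 T) (d0 T) (y1 T) (d1 T) n : ℝ) : ℂ) * (n : ℂ) ^ (-s) =
      ∑ n ∈ Icc 1 (NN T * (y2 T * y2 T)), (if n ≤ y2 T then ((hF k T n : ℝ) : ℂ) else 0) * (n : ℂ) ^ (-s) := by
    rw [← sum_subset (Icc_subset_Icc_right hle) (fun n hn hn' => ?_)]
    · refine sum_congr rfl fun n hn => ?_
      rw [mem_Icc] at hn
      rw [if_pos hn.2, hF_eq h hn.2]
    · rw [mem_Icc] at hn hn'
      rw [if_neg (by omega), zero_mul]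
  rw [h1, ← sum_sub_distrib]
  refine sum_congr rfl fun n _ => ?_
  beta_reduce
  split_ifs
  · ring
  · ring

lemma Dp_cont (a : ℕ → ℂ) (Y : ℕ) : Continuous fun t : ℝ => Dp a Y (cl t) := by
  unfold Dp cl
  refine continuous_finsetSum _ fun n hn => ?_
  rw [mem_Icc] at hn
  have hn0 : (n : ℂ) ≠ 0 := by exact_mod_cast (by omega : n ≠ 0)
  refine continuous_const.mul (Continuous.const_cpow ?_ (Or.inl hn0))
  fun_prop

lemma cl_term_norm {n : ℕ} (hn : 1 ≤ n) (t : ℝ) : ‖(n : ℂ) ^ (-cl t)‖ ≤ 1 := by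
  rw [Complex.norm_natCast_cpow_of_pos (by omega)]
  have e : (-cl t).re = -(1 / 2) := by simp [cl]
  rw [e]
  exact Real.rpow_le_one_of_one_le_of_nonpos (by exact_mod_cast hn) (by norm_num)

lemma Dp_norm_le {a : ℕ → ℂ} {Y : ℕ} {M : ℝ} (h : ∀ n ∈ Icc 1 Y, ‖a n‖ ≤ M) (t : ℝ) :
    ‖Dp a Y (cl t)‖ ≤ Y * M := by
  unfold Dp
  refine (norm_sum_le _ _).trans ?_
  have h1 : ∀ n ∈ Icc 1 Y, ‖a n * (n : ℂ) ^ (-cl t)‖ ≤ M := by
    intro n hn
    rw [norm_mul]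
    calc ‖a n‖ * ‖(n : ℂ) ^ (-cl t)‖ ≤ ‖a n‖ * 1 :=
          mul_le_mul_of_nonneg_left (cl_term_norm (mem_Icc.mp hn).1 t) (norm_nonneg _)
      _ ≤ M := by rw [mul_one]; exact h n hn
  refine (sum_le_sum h1).trans ?_
  rw [sum_const, nsmul_eq_mul, Nat.card_Icc]
  simp

lemma AA_le {k T : ℝ} (hk0 : 0 ≤ k) (hk1 : k ≤ 1) (t : ℝ) : ‖AA k T (cl t)‖ ≤ y2 T := by
  have h := Dp_norm_le (a := fun n => ((aI k (y0 T) (d0 T) n : ℝ) : ℂ)) (Y := y2 T) (M := 1)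
    (fun n _ => by
      rw [Complex.norm_real]
      exact aI_abs (by rw [abs_of_nonneg hk0]; exact hk1) n) t
  rw [mul_one] at h
  exact h

lemma MM_le {T : ℝ} (t : ℝ) : ‖MM T (cl t)‖ ≤ y2 T := by
  have h := Dp_norm_le (a := fun n => ((muM (y0 T) (d0 T) (y1 T) (d1 T) n : ℝ) : ℂ)) (Y := y2 T) (M := 1)
    (fun n _ => by
      rw [Complex.norm_real]
      exact muM_abs n) t
  rw [mul_one] at h
  exact h

lemma tau_le {n : ℕ} (hn : n ≠ 0) : tau n ≤ n := by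
  rw [tau_eq hn]
  exact_mod_cast Nat.card_divisors_le_self n

lemma DL_le {k T : ℝ} (hk0 : 0 ≤ k) (hk1 : k ≤ 1) (t : ℝ) : ‖DL k T (cl t)‖ ≤ (y2 T : ℝ) ^ 3 := by
  have h := Dp_norm_le (a := fun n => ((cM k (y0 T) (d0 T) (y1 T) (d1 T) n : ℝ) : ℂ)) (Y := y2 T)
    (M := (y2 T : ℝ) ^ 2) (fun n hn => by
      rw [mem_Icc] at hn
      have hn0 : n ≠ 0 := by omega
      rw [Complex.norm_real]
      refine (cM_abs (by rw [abs_of_nonneg hk0]; exact hk1) hn0).trans ?_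
      refine pow_le_pow_left₀ (tau_nonneg n) ((tau_le hn0).trans ?_) 2
      exact_mod_cast hn.2) t
  calc _ ≤ _ := h
    _ = (y2 T : ℝ) ^ 3 := by ring

lemma ZZ_int (T A B : ℝ) (hAB : A ≤ B) (hN : 1 ≤ NN T) : ∫ u in A..B, ‖ZZ T (cl u)‖ ^ 2 ≤
    (B - A + 6 * NN T) * (1 + Real.log (NN T)) := by
  have h := Pool.Agent.W184.mv_DS (g := fun _ => 1) (fun _ => zero_le_one) (fun _ => le_rfl) (σ := 1 / 2) le_rfl
    (NN T) A B
  have e : ∀ u : ℝ, Pool.Agent.W184.DS (fun _ => 1) (NN T) (((1 / 2 : ℝ) : ℂ) + u * Complex.I) = ZZ T (cl u) := by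
    intro u
    unfold Pool.Agent.W184.DS ZZ Dp cl
    push_cast
    rfl
  simp_rw [e] at h
  have h1 := (abs_le.mp h).2
  have h2 : ∑ n ∈ Icc 1 (NN T), (1:ℝ) ^ 2 * (n : ℝ) ^ (-(2 * (1 / 2 : ℝ))) ≤ 1 + Real.log (NN T) := by
    refine le_trans (le_of_eq ?_) (Pool.Agent.W184.harm_le (NN T))
    refine sum_congr rfl fun n _ => ?_
    rw [one_pow, one_mul, show -(2 * (1 / 2 : ℝ)) = -1 by norm_num, Real.rpow_neg_one, one_div]
  have h3 := mul_le_mul_of_nonneg_left h2 (by linarith : 0 ≤ B - A)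
  linarith

lemma ev_log {c e : ℝ} (hc : 0 < c) (he : 0 < e) : ∀ᶠ T : ℝ in atTop, Real.log T ≤ c * T ^ e := by
  have h := (isLittleO_log_rpow_atTop he).bound hc
  filter_upwards [h, eventually_ge_atTop (1:ℝ)] with T hT h1
  rw [Real.norm_eq_abs, Real.norm_eq_abs, abs_of_nonneg (Real.rpow_nonneg (by linarith) e)] at hT
  exact (le_abs_self _).trans hT

theorem t_FN : P_FN := by
  unfold P_FN
  filter_upwards [eventually_ge_atTop (16:ℝ), ev_log (c := 1 / 2000) (e := 1 / 20) (by norm_num) (by norm_num),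
    Real.tendsto_log_atTop.eventually_ge_atTop 4,
    (tendsto_rpow_atTop (by norm_num : (0:ℝ) < 1 / 5)).eventually_ge_atTop 5] with T hT hlog hL4 hT5
  intro k hk0 hk1
  have hT0 : 0 < T := by linarith
  have hT1 : 1 ≤ T := by linarith
  have hX8 : 8 * T ≤ (NN T : ℝ) := Nat.le_ceil _
  have hX9 : (NN T : ℝ) ≤ 9 * T := by
    have := Nat.ceil_lt_add_one (show 0 ≤ 8 * T by linarith)
    unfold NN
    linarith
  have hNN1 : 1 ≤ NN T := by
    have : (1:ℝ) ≤ (NN T : ℝ) := by linarith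
    exact_mod_cast this
  have hy : (y2 T : ℝ) ≤ T ^ ((1:ℝ) / 20) := Nat.floor_le (Real.rpow_nonneg hT0.le _)
  have hy1 : 1 ≤ y2 T := by
    unfold y2
    rw [Nat.le_floor_iff (Real.rpow_nonneg hT0.le _), Nat.cast_one]
    exact Real.one_le_rpow hT1 (by norm_num)
  have hyT : T ^ ((1:ℝ) / 20) ≤ T := by
    calc T ^ ((1:ℝ) / 20) ≤ T ^ (1:ℝ) := Real.rpow_le_rpow_of_exponent_le hT1 (by norm_num)
      _ = T := Real.rpow_one T
  have hyN : y2 T ≤ NN T := by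
    have : (y2 T : ℝ) ≤ (NN T : ℝ) := by linarith
    exact_mod_cast this
  refine ⟨fun n => ((hF k T n : ℝ) : ℂ), fun s => FF_eq k T s, fun s => FD_eq hyN hy1 s, ?_⟩
  intro t ht R hR
  have hR0 : 0 < R := by linarith
  have contF : Continuous fun u : ℝ => FF k T (cl u) := by
    have : (fun u : ℝ => FF k T (cl u)) = fun u : ℝ => Dr (hF k T) (NN T * (y2 T * y2 T)) (cl u) := by
      funext u; exact FF_eq k T (cl u)
    rw [this]
    exact Dp_cont _ _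
  have contZ : Continuous fun u : ℝ => ZZ T (cl u) := Dp_cont _ _
  have contD : Continuous fun u : ℝ => DL k T (cl u) := Dp_cont _ _
  have hz := ZZ_int T (t - R) (t + R) (by linarith) hNN1
  have hlN : Real.log (NN T) ≤ Real.log T + 3 := by
    have h1 : Real.log (NN T) ≤ Real.log (9 * T) := Real.log_le_log (by linarith) hX9
    rw [Real.log_mul (by norm_num) hT0.ne'] at h1
    have h2 : Real.log 9 ≤ 3 := by
      rw [Real.log_le_iff_le_exp (by norm_num)]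
      have h3 : (2.7 : ℝ) < Real.exp 1 := by
        have := Real.exp_one_gt_d9; linarith
      have h4 : Real.exp 3 = Real.exp 1 ^ 3 := by rw [← Real.exp_nat_mul]; norm_num
      rw [h4]
      have := pow_le_pow_left₀ (by norm_num : (0:ℝ) ≤ 2.7) h3.le 3
      norm_num at this ⊢
      linarith
    linarith
  have hlN0 : 0 ≤ Real.log (NN T) := Real.log_nonneg (by exact_mod_cast hNN1)
  have hz2 : ∫ u in (t - R)..(t + R), ‖ZZ T (cl u)‖ ^ 2 ≤ R * T ^ ((1:ℝ) / 20) / 4 := by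
    refine hz.trans ?_
    have h1 : t + R - (t - R) + 6 * NN T ≤ 218 * R := by linarith
    have h2 : 1 + Real.log (NN T) ≤ 2 * Real.log T := by linarith
    calc (t + R - (t - R) + 6 * NN T) * (1 + Real.log (NN T)) ≤ (218 * R) * (2 * Real.log T) :=
          mul_le_mul h1 h2 (by linarith) (by positivity)
      _ ≤ (218 * R) * (2 * (1 / 2000 * T ^ ((1:ℝ) / 20))) := by gcongr
      _ ≤ _ := by
        have := Real.rpow_nonneg hT0.le ((1:ℝ) / 20)
        have := mul_nonneg hR0.le this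
        nlinarith
  have p1 : (y2 T : ℝ) ^ 4 ≤ T ^ ((1:ℝ) / 5) := by
    calc (y2 T : ℝ) ^ 4 ≤ (T ^ ((1:ℝ) / 20)) ^ 4 := pow_le_pow_left₀ (Nat.cast_nonneg _) hy 4
      _ = T ^ ((1:ℝ) / 5) := by
        rw [← Real.rpow_natCast, ← Real.rpow_mul hT0.le]; norm_num
  have p2 : ((y2 T : ℝ) ^ 3) ^ 2 ≤ T ^ ((3:ℝ) / 10) := by
    calc ((y2 T : ℝ) ^ 3) ^ 2 ≤ ((T ^ ((1:ℝ) / 20)) ^ 3) ^ 2 := by gcongr
      _ = T ^ ((3:ℝ) / 10) := by
        rw [← pow_mul, ← Real.rpow_natCast, ← Real.rpow_mul hT0.le]; norm_num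
  have hFb : ∀ u : ℝ, ‖FF k T (cl u)‖ ^ 2 ≤ ‖ZZ T (cl u)‖ ^ 2 * T ^ ((1:ℝ) / 5) := by
    intro u
    unfold FF
    rw [norm_mul, norm_mul, mul_assoc, mul_pow]
    refine mul_le_mul_of_nonneg_left ?_ (by positivity)
    refine le_trans ?_ p1
    calc (‖AA k T (cl u)‖ * ‖MM T (cl u)‖) ^ 2 ≤ ((y2 T : ℝ) * (y2 T : ℝ)) ^ 2 := by
          refine pow_le_pow_left₀ (by positivity) ?_ 2
          exact mul_le_mul (AA_le hk0 hk1 u) (MM_le u) (norm_nonneg _) (Nat.cast_nonneg _)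
      _ = (y2 T : ℝ) ^ 4 := by ring
  have iF : IntervalIntegrable (fun u : ℝ => ‖FF k T (cl u)‖ ^ 2) volume (t - R) (t + R) :=
    (contF.norm.pow 2).intervalIntegrable _ _
  have iZ : IntervalIntegrable (fun u : ℝ => ‖ZZ T (cl u)‖ ^ 2 * T ^ ((1:ℝ) / 5)) volume (t - R) (t + R) :=
    ((contZ.norm.pow 2).mul continuous_const).intervalIntegrable _ _
  have hFI : ∫ u in (t - R)..(t + R), ‖FF k T (cl u)‖ ^ 2 ≤ R * T ^ ((1:ℝ) / 4) / 4 := by
    calc ∫ u in (t - R)..(t + R), ‖FF k T (cl u)‖ ^ 2 ≤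
          ∫ u in (t - R)..(t + R), ‖ZZ T (cl u)‖ ^ 2 * T ^ ((1:ℝ) / 5) :=
          intervalIntegral.integral_mono_on (by linarith) iF iZ fun u _ => hFb u
      _ = (∫ u in (t - R)..(t + R), ‖ZZ T (cl u)‖ ^ 2) * T ^ ((1:ℝ) / 5) := by
        rw [intervalIntegral.integral_mul_const]
      _ ≤ (R * T ^ ((1:ℝ) / 20) / 4) * T ^ ((1:ℝ) / 5) :=
        mul_le_mul_of_nonneg_right hz2 (Real.rpow_nonneg hT0.le _)
      _ = R * (T ^ ((1:ℝ) / 20) * T ^ ((1:ℝ) / 5)) / 4 := by ring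
      _ = R * T ^ ((1:ℝ) / 4) / 4 := by rw [← Real.rpow_add hT0]; norm_num
  have q1 : T ^ ((1:ℝ) / 4) ≤ T ^ ((3:ℝ) / 10) := Real.rpow_le_rpow_of_exponent_le hT1 (by norm_num)
  have q2 : 5 * T ^ ((3:ℝ) / 10) ≤ T ^ ((1:ℝ) / 2) := by
    calc 5 * T ^ ((3:ℝ) / 10) ≤ T ^ ((1:ℝ) / 5) * T ^ ((3:ℝ) / 10) :=
          mul_le_mul_of_nonneg_right hT5 (Real.rpow_nonneg hT0.le _)
      _ = T ^ ((1:ℝ) / 2) := by rw [← Real.rpow_add hT0]; norm_num
  have q0 : 0 ≤ T ^ ((3:ℝ) / 10) := Real.rpow_nonneg hT0.le _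
  have r1 := mul_le_mul_of_nonneg_left q1 hR0.le
  have r2 := mul_le_mul_of_nonneg_left q2 hR0.le
  have r0 := mul_nonneg hR0.le q0
  refine ⟨?_, ?_⟩
  · rw [mul_comm (T ^ ((1:ℝ) / 2))]
    linarith
  · have hD : ∀ u : ℝ, ‖FF k T (cl u) - DL k T (cl u)‖ ^ 2 ≤
        2 * ‖FF k T (cl u)‖ ^ 2 + 2 * T ^ ((3:ℝ) / 10) := by
      intro u
      have h1 := norm_sub_le (FF k T (cl u)) (DL k T (cl u))
      have h2 : ‖DL k T (cl u)‖ ^ 2 ≤ T ^ ((3:ℝ) / 10) :=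
        (pow_le_pow_left₀ (norm_nonneg _) (DL_le hk0 hk1 u) 2).trans p2
      have h3 := pow_le_pow_left₀ (norm_nonneg _) h1 2
      nlinarith [sq_nonneg (‖FF k T (cl u)‖ - ‖DL k T (cl u)‖)]
    have iD : IntervalIntegrable (fun u : ℝ => ‖FF k T (cl u) - DL k T (cl u)‖ ^ 2) volume (t - R) (t + R) :=
      ((contF.sub contD).norm.pow 2).intervalIntegrable _ _
    have iE : IntervalIntegrable (fun u : ℝ => 2 * ‖FF k T (cl u)‖ ^ 2 + 2 * T ^ ((3:ℝ) / 10)) volume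
        (t - R) (t + R) := ((continuous_const.mul (contF.norm.pow 2)).add continuous_const).intervalIntegrable _ _
    have hI := intervalIntegral.integral_mono_on (by linarith : t - R ≤ t + R) iD iE fun u _ => hD u
    have e1 : ∫ u in (t - R)..(t + R), (2 * ‖FF k T (cl u)‖ ^ 2 + 2 * T ^ ((3:ℝ) / 10)) =
        2 * (∫ u in (t - R)..(t + R), ‖FF k T (cl u)‖ ^ 2) + (2 * R) * (2 * T ^ ((3:ℝ) / 10)) := by
      have i1 : IntervalIntegrable (fun u : ℝ => 2 * ‖FF k T (cl u)‖ ^ 2) volume (t - R) (t + R) :=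
        (continuous_const.mul (contF.norm.pow 2)).intervalIntegrable _ _
      have i2 : IntervalIntegrable (fun _ : ℝ => 2 * T ^ ((3:ℝ) / 10)) volume (t - R) (t + R) :=
        continuous_const.intervalIntegrable _ _
      rw [intervalIntegral.integral_add i1 i2, intervalIntegral.integral_const_mul,
        intervalIntegral.integral_const, smul_eq_mul]
      ring
    rw [e1] at hI
    rw [mul_comm (T ^ ((1:ℝ) / 2))]
    linarith

end Pool.Agent.Q251.CD
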