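import Pool.Agent.Q276.CD.Stm2

set_option autoImplicit false

/-! Project CD: powers of a sum over primes, as a sum over smooth numbers. -/

namespace Pool.Agent.Q251.CD

open Pool.Agent.Q276.CD Finset

section
variable {N j Y : ℕ}

lemma smooth_primeFactors {n : ℕ} (hn : n ∈ Nat.smoothNumbers N) : n.primeFactors ⊆ Nat.primesBelow N := by
  intro p hp
  rw [Nat.mem_primeFactors] at hp
  rw [Nat.mem_primesBelow]
  exact ⟨(sm_iff.mp hn).2 p hp.1 hp.2.1, hp.1⟩

lemma fact_zero {n p : ℕ} (hp : p ∉ n.primeFactors) : n.factorization p = 0 := by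
  rw [← Finsupp.notMem_support_iff, Nat.support_factorization]
  exact hp

lemma smooth_Ob {n : ℕ} (hn : n ∈ Nat.smoothNumbers N) :
    Ob 0 N n = ∑ p ∈ Nat.primesBelow N, n.factorization p := by
  rw [Ob_eq_sum, ← sum_subset (smooth_primeFactors hn) (fun p _ hp => fact_zero hp)]
  refine sum_congr rfl fun p hp => ?_
  have := smooth_primeFactors hn hp
  rw [Nat.mem_primesBelow] at this
  rw [if_pos ⟨Nat.zero_le _, this.1⟩]

lemma smooth_mf {φ : ℕ → ℕ → ℝ} (h0 : ∀ p, φ p 0 = 1) {n : ℕ} (hn : n ∈ Nat.smoothNumbers N) :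
    mf φ n = ∏ p ∈ Nat.primesBelow N, φ p (n.factorization p) := by
  unfold mf
  rw [← prod_subset (smooth_primeFactors hn) (fun p _ hp => by rw [fact_zero hp, h0])]

lemma smooth_prod {n : ℕ} (hn : n ∈ Nat.smoothNumbers N) :
    ∏ p ∈ Nat.primesBelow N, p ^ n.factorization p = n := by
  have hn0 := (sm_iff.mp hn).1
  rw [← prod_subset (smooth_primeFactors hn) (fun p _ hp => by rw [fact_zero hp, pow_zero])]
  conv_rhs => rw [← Nat.prod_factorization_pow_eq_self hn0]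
  rw [Finsupp.prod, Nat.support_factorization]

/-- the number with given exponents -/
def Ph (N : ℕ) (κ : ℕ → ℕ) : ℕ := ∏ p ∈ Nat.primesBelow N, p ^ κ p

lemma Ph_pos (κ : ℕ → ℕ) : 0 < Ph N κ :=
  prod_pos fun p hp => pow_pos (Nat.prime_of_mem_primesBelow hp).pos _

lemma Ph_fact {κ : ℕ → ℕ} (hκ : ∀ i, κ i ≠ 0 → i ∈ Nat.primesBelow N) : ⇑(Ph N κ).factorization = κ := by
  funext q
  unfold Ph
  rw [Nat.factorization_prod (fun p hp => pow_ne_zero _ (Nat.prime_of_mem_primesBelow hp).ne_zero),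
    Finsupp.finsetSum_apply]
  have h1 : ∀ p ∈ Nat.primesBelow N, (p ^ κ p).factorization q = if p = q then κ q else 0 := by
    intro p hp
    rw [(Nat.prime_of_mem_primesBelow hp).factorization_pow, Finsupp.single_apply]
    split_ifs with h
    · rw [h]
    · rfl
  rw [sum_congr rfl h1, sum_ite_eq']
  split_ifs with h
  · rfl
  · by_contra hc
    exact h (hκ q (Ne.symm hc))

lemma Ph_smooth (κ : ℕ → ℕ) : Ph N κ ∈ Nat.smoothNumbers N := by
  rw [sm_iff]
  refine ⟨(Ph_pos κ).ne', fun p hp hd => ?_⟩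
  unfold Ph at hd
  rw [hp.prime.dvd_finsetProd_iff] at hd
  obtain ⟨q, hq, hpq⟩ := hd
  rw [(Nat.prime_dvd_prime_iff_eq hp (Nat.prime_of_mem_primesBelow hq)).mp (hp.dvd_of_dvd_pow hpq)]
  exact Nat.lt_of_mem_primesBelow hq

lemma Ph_Ob {κ : ℕ → ℕ} (hκ : ∀ i, κ i ≠ 0 → i ∈ Nat.primesBelow N) :
    Ob 0 N (Ph N κ) = ∑ p ∈ Nat.primesBelow N, κ p := by
  rw [smooth_Ob (Ph_smooth κ), Ph_fact hκ]

lemma Ph_le (κ : ℕ → ℕ) : Ph N κ ≤ N ^ ∑ p ∈ Nat.primesBelow N, κ p := by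
  unfold Ph
  rw [← prod_pow_eq_pow_sum]
  exact prod_le_prod' fun p hp => Nat.pow_le_pow_left (Nat.lt_of_mem_primesBelow hp).le _

open Classical in
/-- smooth numbers with exactly `j` prime factors -/
noncomputable def Sj (N j Y : ℕ) : Finset ℕ := (Icc 1 Y).filter fun n => n ∈ Nat.smoothNumbers N ∧ Ob 0 N n = j

lemma mem_Sj {n : ℕ} : n ∈ Sj N j Y ↔ (1 ≤ n ∧ n ≤ Y) ∧ n ∈ Nat.smoothNumbers N ∧ Ob 0 N n = j := by
  classical
  unfold Sj
  rw [mem_filter, mem_Icc]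

/-- the multinomial theorem for a sum over primes -/
theorem pow_id {R : Type*} [CommSemiring R] (f : ℕ →* R) (hY : N ^ j ≤ Y) :
    (∑ p ∈ Nat.primesBelow N, f p) ^ j =
      ∑ n ∈ Sj N j Y, (Nat.multinomial (Nat.primesBelow N) n.factorization : R) * f n := by
  rw [Finset.sum_pow_eq_sum_piAntidiag]
  refine sum_bij' (fun κ _ => Ph N κ) (fun n _ => ⇑n.factorization) ?_ ?_ ?_ ?_ ?_
  · intro κ hκ
    rw [mem_piAntidiag] at hκ
    rw [mem_Sj]
    refine ⟨⟨Ph_pos κ, (Ph_le κ).trans ?_⟩, Ph_smooth κ, ?_⟩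
    · rw [hκ.1]; exact hY
    · rw [Ph_Ob hκ.2]; exact hκ.1
  · intro n hn
    rw [mem_Sj] at hn
    rw [mem_piAntidiag]
    refine ⟨?_, fun i hi => ?_⟩
    · rw [← smooth_Ob hn.2.1]; exact hn.2.2
    · by_contra hc
      exact hi (fact_zero fun h => hc (smooth_primeFactors hn.2.1 h))
  · intro κ hκ
    rw [mem_piAntidiag] at hκ
    exact Ph_fact hκ.2
  · intro n hn
    rw [mem_Sj] at hn
    exact smooth_prod hn.2.1
  · intro κ hκ
    rw [mem_piAntidiag] at hκ
    rw [Ph_fact hκ.2]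
    congr 1
    unfold Ph
    rw [map_prod]
    refine prod_congr rfl fun p _ => ?_
    rw [map_pow]

lemma mult_eq {n : ℕ} (hn : n ∈ Nat.smoothNumbers N) :
    (Nat.multinomial (Nat.primesBelow N) n.factorization : ℝ) = ((Ob 0 N n).factorial : ℝ) * mf (ek 1) n := by
  have h1 := Nat.multinomial_spec (s := Nat.primesBelow N) (f := n.factorization)
  rw [← smooth_Ob hn] at h1
  rw [smooth_mf (fun p => ek_zero 1 p) hn, ← h1]
  push_cast
  rw [mul_comm (∏ _ ∈ _, _) _, mul_assoc, ← prod_mul_distrib]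
  rw [prod_eq_one, mul_one]
  intro p _
  unfold ek
  have : ((n.factorization p).factorial : ℝ) ≠ 0 := by exact_mod_cast Nat.factorial_ne_zero _
  rw [one_pow]
  field_simp

lemma ek_scale (k : ℝ) {n : ℕ} (hn : n ∈ Nat.smoothNumbers N) : mf (ek k) n = k ^ Ob 0 N n * mf (ek 1) n := by
  rw [smooth_mf (fun p => ek_zero k p) hn, smooth_mf (fun p => ek_zero 1 p) hn, smooth_Ob hn,
    ← prod_pow_eq_pow_sum, ← prod_mul_distrib]
  refine prod_congr rfl fun p _ => ?_
  unfold ek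
  rw [one_pow]
  ring

end

/-- the completely multiplicative function `n^{-s}` -/
noncomputable def cpH (s : ℂ) : ℕ →* ℂ where
  toFun n := (n : ℂ) ^ (-s)
  map_one' := by simp
  map_mul' m n := by
    push_cast
    exact Complex.natCast_mul_natCast_cpow m n (-s)

/-- the identity for the powers of the prime sum -/
theorem PS_pow (N j Y : ℕ) (hY : N ^ j ≤ Y) (t : ℝ) : PS N t ^ j =
    ∑ n ∈ Sj N j Y, (((j.factorial : ℝ) * mf (ek 1) n : ℝ) : ℂ) * (n : ℂ) ^ (-cl t) := by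
  have h := pow_id (cpH (cl t)) hY
  have e : ∑ p ∈ Nat.primesBelow N, cpH (cl t) p = PS N t := rfl
  rw [e] at h
  rw [h]
  refine sum_congr rfl fun n hn => ?_
  rw [mem_Sj] at hn
  have h2 := mult_eq hn.2.1
  rw [hn.2.2] at h2
  rw [← h2]
  push_cast
  rfl

theorem t_EXPO : P_EXPO := by
  classical
  intro k N d Y hN hY t
  have h1 : ∀ j ∈ range (d + 1), ((k : ℂ) * PS N t) ^ j / (j.factorial : ℂ) =
      ∑ n ∈ Sj N j Y, ((aI k N d n : ℝ) : ℂ) * (n : ℂ) ^ (-cl t) := by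
    intro j hj
    rw [mem_range] at hj
    have hY' : N ^ j ≤ Y := (Nat.pow_le_pow_right hN (by omega)).trans hY
    rw [mul_pow, PS_pow N j Y hY' t, mul_sum, sum_div]
    refine sum_congr rfl fun n hn => ?_
    rw [mem_Sj] at hn
    rw [aI_apply, if_pos ⟨hn.2.1, by omega⟩, ek_scale k hn.2.1, hn.2.2]
    have : (j.factorial : ℂ) ≠ 0 := by exact_mod_cast Nat.factorial_ne_zero _
    push_cast
    field_simp
  rw [sum_congr rfl h1]
  have h2 : ∀ j, Sj N j Y = ((Icc 1 Y).filter fun n => n ∈ Nat.smoothNumbers N ∧ Ob 0 N n ≤ d).filter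
      (fun n => Ob 0 N n = j) ∨ ¬ j ∈ range (d + 1) := by
    intro j
    by_cases hj : j ∈ range (d + 1)
    · left
      rw [mem_range] at hj
      ext n
      rw [mem_Sj, mem_filter, mem_filter, mem_Icc]
      constructor
      · rintro ⟨a, b, c⟩; exact ⟨⟨a, b, by omega⟩, c⟩
      · rintro ⟨⟨a, b, c⟩, e⟩; exact ⟨a, b, e⟩
    · exact Or.inr hj
  have h3 : ∑ j ∈ range (d + 1), ∑ n ∈ Sj N j Y, ((aI k N d n : ℝ) : ℂ) * (n : ℂ) ^ (-cl t) =
      ∑ j ∈ range (d + 1), ∑ n ∈ ((Icc 1 Y).filter fun n => n ∈ Nat.smoothNumbers N ∧ Ob 0 N n ≤ d).filter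
      (fun n => Ob 0 N n = j), ((aI k N d n : ℝ) : ℂ) * (n : ℂ) ^ (-cl t) := by
    refine sum_congr rfl fun j hj => ?_
    rcases h2 j with h | h
    · rw [h]
    · exact absurd hj h
  rw [h3, sum_fiberwise_of_maps_to]
  · rw [sum_filter]
    unfold Dr Dp
    refine sum_congr rfl fun n _ => ?_
    split_ifs with h
    · rfl
    · beta_reduce
      rw [aI_apply, if_neg h, Complex.ofReal_zero, zero_mul]
  · intro n hn
    rw [mem_filter] at hn
    rw [mem_range]
    omega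

end Pool.Agent.Q251.CD
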