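import Pool.Agent.Q276.CD.Stm
import Pool.Agent.H329R3.NLS.Remez

/-! The Remez inequality for bounded analytic functions (lemma job REM of the project CD of
helper276). -/

set_option autoImplicit false

namespace Pool.Agent.Q251.CD

open Set Filter Topology MeasureTheory Pool.Agent.Q276.CD

/-- well separated points in a set of measure at least `e` inside `[-1,1]` -/
theorem nodes {e : ℝ} (he : 0 < e) {E : Set ℝ} (hE : E ⊆ Icc (-1) 1)
    (hvol : ENNReal.ofReal e ≤ volume E) (n : ℕ) :
    ∃ x : ℕ → ℝ, (∀ i ≤ n, x i ∈ E) ∧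
      ∀ i j, i < j → j ≤ n → (e / (2 * (n + 1))) * ((j : ℝ) - i) ≤ x j - x i := by
  classical
  set δ : ℝ := e / (2 * (n + 1)) with hδ
  have hδ0 : 0 < δ := by positivity
  set κ : ℝ → ℕ := fun x => ⌊(x + 1) / δ⌋₊ with hκ
  have hκ1 : ∀ x ∈ E, -1 + κ x * δ ≤ x := by
    intro x hx
    have h0 : 0 ≤ (x + 1) / δ := div_nonneg (by linarith [(hE hx).1]) hδ0.le
    have := Nat.floor_le h0
    rw [le_div_iff₀ hδ0] at this
    linarith
  have hκ2 : ∀ x ∈ E, x < -1 + (κ x + 1) * δ := by
    intro x hx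
    have := Nat.lt_floor_add_one ((x + 1) / δ)
    rw [div_lt_iff₀ hδ0] at this
    linarith
  obtain ⟨N, hN⟩ : ∃ N : ℕ, N = ⌊2 / δ⌋₊ + 1 := ⟨_, rfl⟩
  have hκ3 : ∀ x ∈ E, κ x ∈ Finset.range N := by
    intro x hx
    rw [Finset.mem_range, hN, Nat.lt_succ_iff]
    apply Nat.floor_le_floor
    apply div_le_div_of_nonneg_right _ hδ0.le
    linarith [(hE hx).2]
  set S : Finset ℕ := (Finset.range N).filter (fun i => ∃ x ∈ E, κ x = i) with hS
  have hsub : E ⊆ ⋃ i ∈ S, Icc (-1 + i * δ) (-1 + (i + 1) * δ) := by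
    intro x hx
    rw [mem_iUnion₂]
    exact ⟨κ x, Finset.mem_filter.2 ⟨hκ3 x hx, x, hx, rfl⟩, hκ1 x hx, (hκ2 x hx).le⟩
  have hcard : 2 * n + 2 ≤ S.card := by
    have h1 : volume E ≤ ∑ i ∈ S, volume (Icc (-1 + i * δ) (-1 + (i + 1) * δ)) :=
      (measure_mono hsub).trans (measure_biUnion_finset_le S _)
    have h2 : ∀ i ∈ S, volume (Icc (-1 + i * δ) (-1 + (i + 1) * δ)) = ENNReal.ofReal δ := by
      intro i _
      rw [Real.volume_Icc]
      congr 1
      ring
    rw [Finset.sum_congr rfl h2, Finset.sum_const, nsmul_eq_mul] at h1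
    have h3 := hvol.trans h1
    have h4 : ((S.card : ℕ) : ENNReal) * ENNReal.ofReal δ = ENNReal.ofReal (S.card * δ) := by
      rw [ENNReal.ofReal_mul (by positivity), ENNReal.ofReal_natCast]
    rw [h4, ENNReal.ofReal_le_ofReal_iff (by positivity)] at h3
    have h5 : e = (2 * n + 2 : ℕ) * δ := by
      rw [hδ]; push_cast; field_simp
    rw [h5] at h3
    have h6 := le_of_mul_le_mul_right h3 hδ0
    exact_mod_cast h6
  obtain ⟨f, hf1, hf2⟩ := H329R3.NLS.pick n S hcard
  have hex : ∀ i, ∃ x, i ≤ n → x ∈ E ∧ κ x = f i := by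
    intro i
    by_cases h : i ≤ n
    · obtain ⟨x, hx, hx2⟩ := (Finset.mem_filter.1 (hf1 i h)).2
      exact ⟨x, fun _ => ⟨hx, hx2⟩⟩
    · exact ⟨0, fun h' => absurd h' h⟩
  choose x hx using hex
  refine ⟨x, fun i hi => (hx i hi).1, fun i j hij hj => ?_⟩
  have h1 := hκ2 _ (hx i (by omega)).1
  have h2 := hκ1 _ (hx j hj).1
  rw [(hx i (by omega)).2] at h1
  rw [(hx j hj).2] at h2
  have h3 := hf2 i j hij.le hj
  have h4 : (f i : ℝ) + 2 * ((j : ℝ) - i) ≤ f j := by
    have : ((j - i : ℕ) : ℝ) = (j : ℝ) - i := by rw [Nat.cast_sub hij.le]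
    rw [← this]
    exact_mod_cast h3
  have h5 : (1 : ℝ) ≤ (j : ℝ) - i := by
    have : ((i + 1 : ℕ) : ℝ) ≤ j := by exact_mod_cast hij
    push_cast at this
    linarith
  nlinarith [mul_le_mul_of_nonneg_right h4 hδ0.le, mul_le_mul_of_nonneg_right h5 hδ0.le]

/-- zeros can be divided out -/
theorem divide (s : Finset ℂ) : ∀ F : ℂ → ℂ, DifferentiableOn ℂ F (Metric.ball 0 9) →
    (∀ x ∈ s, x ∈ Metric.ball (0 : ℂ) 9) → (∀ x ∈ s, F x = 0) →
    ∃ g : ℂ → ℂ, DifferentiableOn ℂ g (Metric.ball 0 9) ∧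
      ∀ z, F z = (∏ x ∈ s, (z - x)) * g z := by
  classical
  induction s using Finset.induction_on with
  | empty =>
    intro F hF _ _
    exact ⟨F, hF, fun z => by simp⟩
  | insert a s ha ih =>
    intro F hF hs h0
    have hnh : Metric.ball (0 : ℂ) 9 ∈ 𝓝 a :=
      Metric.isOpen_ball.mem_nhds (hs a (Finset.mem_insert_self _ _))
    have hd : DifferentiableOn ℂ (dslope F a) (Metric.ball 0 9) :=
      (Complex.differentiableOn_dslope hnh).2 hF
    have hFa : F a = 0 := h0 a (Finset.mem_insert_self _ _)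
    have hfac : ∀ z, F z = (z - a) * dslope F a z := by
      intro z
      have := sub_smul_dslope F a z
      rw [smul_eq_mul, hFa, sub_zero] at this
      exact this.symm
    obtain ⟨g, hg, hg2⟩ := ih (dslope F a) hd
      (fun x hx => hs x (Finset.mem_insert_of_mem hx)) (by
        intro x hx
        have h1 := hfac x
        rw [h0 x (Finset.mem_insert_of_mem hx)] at h1
        have h2 : x - a ≠ 0 := by
          intro h
          rw [sub_eq_zero] at h
          rw [h] at hx
          exact ha hx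
        rcases mul_eq_zero.1 h1.symm with h | h
        · exact absurd h h2
        · exact h)
    refine ⟨g, hg, fun z => ?_⟩
    rw [Finset.prod_insert ha, hfac z, hg2 z]
    ring

/-- the Schwarz lemma for many zeros -/
theorem schwarz (s : Finset ℂ) (F : ℂ → ℂ) (M : ℝ) (hF : DifferentiableOn ℂ F (Metric.ball 0 9))
    (hs : ∀ x ∈ s, ‖x‖ ≤ 1) (h0 : ∀ x ∈ s, F x = 0) (hM : ∀ z : ℂ, ‖z‖ ≤ 8 → ‖F z‖ ≤ M)
    (z : ℂ) (hz : ‖z‖ ≤ 1) : ‖F z‖ ≤ M * (2 / 7) ^ s.card := by
  have hM0 : 0 ≤ M := (norm_nonneg _).trans (hM 0 (by simp))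
  obtain ⟨g, hg, hg2⟩ := divide s F hF (fun x hx => by
    rw [mem_ball_zero_iff]
    linarith [hs x hx]) h0
  have hcl : closure (Metric.ball (0 : ℂ) 8) ⊆ Metric.ball 0 9 := by
    rw [closure_ball _ (by norm_num)]
    intro w hw
    rw [mem_closedBall_zero_iff] at hw
    rw [mem_ball_zero_iff]
    linarith
  have hdc : DiffContOnCl ℂ g (Metric.ball 0 8) := (hg.mono hcl).diffContOnCl
  have hbd : ∀ w ∈ frontier (Metric.ball (0 : ℂ) 8), ‖g w‖ ≤ M / 7 ^ s.card := by
    intro w hw
    rw [frontier_ball _ (by norm_num), mem_sphere_zero_iff_norm] at hw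
    have h1 : ‖F w‖ ≤ M := hM w hw.le
    rw [hg2 w, norm_mul, norm_prod] at h1
    have h2 : (7 : ℝ) ^ s.card ≤ ∏ x ∈ s, ‖w - x‖ := by
      rw [← Finset.prod_const]
      refine Finset.prod_le_prod (fun _ _ => by norm_num) fun x hx => ?_
      have := norm_sub_norm_le w x
      linarith [hs x hx]
    rw [le_div_iff₀ (by positivity), mul_comm]
    exact (mul_le_mul_of_nonneg_right h2 (norm_nonneg _)).trans h1
  have hz8 : z ∈ closure (Metric.ball (0 : ℂ) 8) := by
    rw [closure_ball _ (by norm_num), mem_closedBall_zero_iff]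
    linarith
  have hgz := Complex.norm_le_of_forall_mem_frontier_norm_le Metric.isBounded_ball hdc hbd hz8
  rw [hg2 z, norm_mul, norm_prod]
  have h3 : ∏ x ∈ s, ‖z - x‖ ≤ 2 ^ s.card := by
    rw [← Finset.prod_const]
    refine Finset.prod_le_prod (fun _ _ => norm_nonneg _) fun x hx => ?_
    have := norm_sub_le z x
    linarith [hs x hx]
  calc (∏ x ∈ s, ‖z - x‖) * ‖g z‖ ≤ 2 ^ s.card * (M / 7 ^ s.card) :=
        mul_le_mul h3 hgz (norm_nonneg _) (by positivity)
    _ = M * (2 / 7) ^ s.card := by rw [div_pow]; ring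

theorem t_REM : P_REM := by
  classical
  refine ⟨216, by norm_num, ?_⟩
  intro f B η e E n hf hB he hEm hE hvol hη z hz
  have hB0 : 0 ≤ B := (norm_nonneg _).trans (hB 0 (by simp))
  obtain ⟨x, hx1, hx2⟩ := nodes he hE hvol n
  set δ : ℝ := e / (2 * (n + 1)) with hδ
  have hδ0 : 0 < δ := by positivity
  have hη0 : 0 ≤ η := (norm_nonneg _).trans (hη _ (hx1 0 (Nat.zero_le _)))
  have he2 : e ≤ 2 := by
    have h1 := hvol.trans (measure_mono hE)
    rw [Real.volume_Icc, ENNReal.ofReal_le_ofReal_iff (by norm_num)] at h1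
    linarith
  have habs : ∀ i ≤ n, ∀ j ≤ n, i ≠ j → δ * |(i : ℝ) - j| ≤ |x i - x j| := by
    intro i hi j hj hij
    rcases lt_or_gt_of_ne hij with h | h
    · have h1 := hx2 i j h hj
      have h2 : (0 : ℝ) ≤ (j : ℝ) - i := by
        have : (i : ℝ) ≤ j := by exact_mod_cast h.le
        linarith
      rw [abs_sub_comm, abs_sub_comm (x i), abs_of_nonneg h2]
      exact h1.trans (le_abs_self _)
    · have h1 := hx2 j i h hi
      have h2 : (0 : ℝ) ≤ (i : ℝ) - j := by
        have : (j : ℝ) ≤ i := by exact_mod_cast h.le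
        linarith
      rw [abs_of_nonneg h2]
      exact h1.trans (le_abs_self _)
  obtain ⟨v, hv⟩ : ∃ v : ℕ → ℂ, v = fun i => (x i : ℂ) := ⟨_, rfl⟩
  have hnv : ∀ j ≤ n, ‖v j‖ ≤ 1 := by
    intro j hj
    rw [hv]
    simp only [Complex.norm_real, Real.norm_eq_abs]
    rw [abs_le]
    exact hE (hx1 j hj)
  have hinj : Set.InjOn v (Finset.range (n + 1) : Finset ℕ) := by
    intro i hi j hj hij
    by_contra hne
    have hi' : i ≤ n := by simpa [Nat.lt_succ_iff] using hi
    have hj' : j ≤ n := by simpa [Nat.lt_succ_iff] using hj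
    have h1 := habs i hi' j hj' hne
    rw [hv] at hij
    have h2 : x i = x j := Complex.ofReal_injective hij
    rw [h2, sub_self, abs_zero] at h1
    have h3 : (0 : ℝ) < |(i : ℝ) - j| := by
      apply abs_pos.2
      intro h
      apply hne
      have : (i : ℝ) = j := by linarith
      exact_mod_cast this
    nlinarith
  obtain ⟨P, hP⟩ : ∃ P : Polynomial ℂ, P = Lagrange.interpolate (Finset.range (n + 1)) v
    (fun i => f (v i)) := ⟨_, rfl⟩
  have hnode : ∀ i ∈ Finset.range (n + 1), P.eval (v i) = f (v i) := by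
    intro i hi
    rw [hP]
    exact Lagrange.eval_interpolate_at_node _ hinj hi
  obtain ⟨Q, hQ⟩ : ∃ Q : ℝ, Q = (108 / e) ^ (n + 1) * η := ⟨_, rfl⟩
  have hPb : ∀ w : ℂ, ‖w‖ ≤ 8 → ‖P.eval w‖ ≤ Q := by
    intro w hw
    have heval : P.eval w = ∑ i ∈ Finset.range (n + 1), f (v i) *
        ∏ j ∈ (Finset.range (n + 1)).erase i, ((v i - v j)⁻¹ * (w - v j)) := by
      rw [hP, Lagrange.interpolate_apply, Polynomial.eval_finsetSum]
      refine Finset.sum_congr rfl fun i _ => ?_
      rw [Polynomial.eval_mul, Polynomial.eval_C, Lagrange.basis, Polynomial.eval_prod]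
      congr 1
      refine Finset.prod_congr rfl fun j _ => ?_
      simp [Lagrange.basisDivisor]
    have hterm : ∀ i ∈ Finset.range (n + 1), ‖f (v i) *
        ∏ j ∈ (Finset.range (n + 1)).erase i, ((v i - v j)⁻¹ * (w - v j))‖ ≤
        η * ((9 / δ) ^ n * (n.choose i / n.factorial)) := by
      intro i hi
      have hi' : i ≤ n := by simpa [Nat.lt_succ_iff] using hi
      rw [norm_mul]
      refine mul_le_mul (by rw [hv]; exact hη _ (hx1 i hi')) ?_ (norm_nonneg _) hη0
      rw [norm_prod]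
      have h1 : ∀ j ∈ (Finset.range (n + 1)).erase i, ‖(v i - v j)⁻¹ * (w - v j)‖ ≤
          (9 / δ) * |(i : ℝ) - j|⁻¹ := by
        intro j hj
        have hj1 : j ≠ i := Finset.ne_of_mem_erase hj
        have hj' : j ≤ n := by
          have := Finset.mem_of_mem_erase hj
          simpa [Nat.lt_succ_iff] using this
        have h3 : (0 : ℝ) < |(i : ℝ) - j| := by
          apply abs_pos.2
          intro h
          apply hj1
          have : (j : ℝ) = i := by linarith
          exact_mod_cast this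
        have h4 := habs i hi' j hj' (Ne.symm hj1)
        have h5 : ‖v i - v j‖ = |x i - x j| := by
          rw [hv]
          simp only
          rw [← Complex.ofReal_sub, Complex.norm_real, Real.norm_eq_abs]
        have h6 : ‖w - v j‖ ≤ 9 := by
          have h61 := norm_sub_le w (v j)
          have h62 := hnv j hj'
          linarith
        rw [norm_mul, norm_inv, h5]
        have h7 : |x i - x j|⁻¹ ≤ (δ * |(i : ℝ) - j|)⁻¹ := inv_anti₀ (by positivity) h4
        calc |x i - x j|⁻¹ * ‖w - v j‖ ≤ (δ * |(i : ℝ) - j|)⁻¹ * 9 :=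
              mul_le_mul h7 h6 (norm_nonneg _) (by positivity)
          _ = (9 / δ) * |(i : ℝ) - j|⁻¹ := by
              field_simp
      refine (Finset.prod_le_prod (fun _ _ => norm_nonneg _) h1).trans (le_of_eq ?_)
      rw [Finset.prod_mul_distrib, Finset.prod_const, Finset.prod_inv_distrib,
        H329R3.NLS.prod_abs n i hi']
      have hcard : ((Finset.range (n + 1)).erase i).card = n := by
        rw [Finset.card_erase_of_mem hi, Finset.card_range]; rfl
      rw [hcard]
      congr 1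
      have hch := Nat.choose_mul_factorial_mul_factorial hi'
      have hch' : (n.choose i : ℝ) * i.factorial * (n - i).factorial = n.factorial := by
        exact_mod_cast hch
      rw [← hch']
      have h8 : (n.choose i : ℝ) ≠ 0 := by
        exact_mod_cast (Nat.choose_pos hi').ne'
      field_simp
    rw [heval]
    refine (norm_sum_le _ _).trans ((Finset.sum_le_sum hterm).trans ?_)
    rw [← Finset.mul_sum, ← Finset.mul_sum, ← Finset.sum_div]
    have hsum : ∑ i ∈ Finset.range (n + 1), (n.choose i : ℝ) = 2 ^ n := by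
      exact_mod_cast Nat.sum_range_choose n
    rw [hsum]
    have hexp : ((n : ℝ) + 1) ^ n / n.factorial ≤ 3 ^ (n + 1) := by
      have h1 := Real.pow_div_factorial_le_exp (x := (n : ℝ) + 1) (by positivity) n
      have h2 : Real.exp ((n : ℝ) + 1) = Real.exp 1 ^ (n + 1) := by
        rw [← Real.exp_nat_mul]; push_cast; ring_nf
      rw [h2] at h1
      refine h1.trans (pow_le_pow_left₀ (Real.exp_pos _).le ?_ _)
      linarith [Real.exp_one_lt_d9]
    have h36 : (1 : ℝ) ≤ 36 / e := by
      rw [le_div_iff₀ he]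
      linarith
    have e1 : (9 / δ) ^ n * (2 ^ n / n.factorial) =
        (36 / e) ^ n * (((n : ℝ) + 1) ^ n / n.factorial) := by
      rw [← mul_div_assoc, ← mul_pow, ← mul_div_assoc, ← mul_pow]
      congr 2
      rw [hδ]
      field_simp
      ring
    rw [e1, hQ]
    calc η * ((36 / e) ^ n * (((n : ℝ) + 1) ^ n / n.factorial))
        ≤ η * ((36 / e) ^ n * 3 ^ (n + 1)) :=
          mul_le_mul_of_nonneg_left (mul_le_mul_of_nonneg_left hexp (by positivity)) hη0
      _ ≤ η * ((36 / e) ^ (n + 1) * 3 ^ (n + 1)) := by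
          refine mul_le_mul_of_nonneg_left ?_ hη0
          refine mul_le_mul_of_nonneg_right ?_ (by positivity)
          exact pow_le_pow_right₀ h36 (Nat.le_succ _)
      _ = (108 / e) ^ (n + 1) * η := by
          rw [← mul_pow, mul_comm]
          congr 2
          ring
  have hcardv : ((Finset.range (n + 1)).image v).card = n + 1 := by
    rw [Finset.card_image_of_injOn hinj, Finset.card_range]
  have hmain := schwarz ((Finset.range (n + 1)).image v) (fun w => f w - P.eval w) (B + Q)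
    (hf.sub P.differentiable.differentiableOn) (by
      intro w hw
      obtain ⟨i, hi, rfl⟩ := Finset.mem_image.1 hw
      exact hnv i (by simpa [Nat.lt_succ_iff] using hi)) (by
      intro w hw
      obtain ⟨i, hi, rfl⟩ := Finset.mem_image.1 hw
      rw [hnode i hi, sub_self]) (by
      intro w hw
      exact (norm_sub_le _ _).trans (add_le_add (hB w hw) (hPb w hw))) z hz
  rw [hcardv] at hmain
  have hQ0 : 0 ≤ Q := (norm_nonneg _).trans (hPb 0 (by simp))
  have h1 : ‖f z‖ ≤ ‖f z - P.eval z‖ + ‖P.eval z‖ := by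
    have := norm_add_le (f z - P.eval z) (P.eval z)
    rwa [sub_add_cancel] at this
  have h2 : ‖P.eval z‖ ≤ Q := hPb z (by linarith)
  have h3 : ((2 : ℝ) / 7) ^ (n + 1) ≤ (1 / 2) ^ n := by
    calc ((2 : ℝ) / 7) ^ (n + 1) ≤ (1 / 2) ^ (n + 1) :=
          pow_le_pow_left₀ (by norm_num) (by norm_num) _
      _ ≤ (1 / 2) ^ n := pow_le_pow_of_le_one (by norm_num) (by norm_num) (Nat.le_succ _)
  have h4 : ((2 : ℝ) / 7) ^ (n + 1) ≤ 1 := pow_le_one₀ (by norm_num) (by norm_num)
  have h5 : 2 * Q ≤ (216 / e) ^ (n + 1) * η := by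
    rw [hQ, ← mul_assoc]
    refine mul_le_mul_of_nonneg_right ?_ hη0
    have h6 : (216 / e : ℝ) ^ (n + 1) = 2 ^ (n + 1) * (108 / e) ^ (n + 1) := by
      rw [← mul_pow]
      congr 1
      ring
    rw [h6]
    refine mul_le_mul_of_nonneg_right ?_ (by positivity)
    have : (2 : ℝ) ^ 1 ≤ 2 ^ (n + 1) := pow_le_pow_right₀ (by norm_num) (by omega)
    linarith
  have h7 : (B + Q) * (2 / 7) ^ (n + 1) ≤ B * (1 / 2) ^ n + Q := by
    rw [add_mul]
    have h8 := mul_le_mul_of_nonneg_left h3 hB0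
    have h9 := mul_le_mul_of_nonneg_left h4 hQ0
    rw [mul_one] at h9
    linarith
  linarith

end Pool.Agent.Q251.CD
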