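import Pool.Agent.Q251.CD.Pow

set_option autoImplicit false

/-! Project CD, lemma job TINY. -/

namespace Pool.Agent.Q251.CD

open Pool.Agent.Q276.CD Finset MeasureTheory Filter

lemma ev_V (K : ℝ) : ∀ᶠ T : ℝ in atTop, K ≤ V T :=
  (Real.tendsto_log_atTop.comp Real.tendsto_log_atTop).eventually_ge_atTop K

lemma ev_pow (m : ℕ) {c : ℝ} (hc : 0 < c) : ∀ᶠ T : ℝ in atTop, V T ^ m ≤ c * Real.log T := by
  have h := (Real.isLittleO_pow_log_id_atTop (n := m)).bound hc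
  have h2 := Real.tendsto_log_atTop.eventually h
  filter_upwards [h2, Real.tendsto_log_atTop.eventually_ge_atTop 1] with T hT h1
  simp only [id, Real.norm_eq_abs] at hT
  rw [abs_of_nonneg (by linarith : (0:ℝ) ≤ Real.log T)] at hT
  exact (le_abs_self _).trans hT

/-- the multinomial coefficient is at most the factorial -/
lemma mult_le {N j Y n : ℕ} (hn : n ∈ Sj N j Y) :
    (Nat.multinomial (Nat.primesBelow N) n.factorization : ℝ) ≤ (j.factorial : ℝ) := by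
  rw [mem_Sj] at hn
  have h1 := Nat.multinomial_spec (s := Nat.primesBelow N) (f := n.factorization)
  rw [← smooth_Ob hn.2.1, hn.2.2] at h1
  have h2 : 1 ≤ ∏ i ∈ Nat.primesBelow N, (n.factorization i).factorial :=
    Nat.one_le_iff_ne_zero.mpr (prod_ne_zero_iff.mpr fun i _ => Nat.factorial_ne_zero _)
  have h3 : Nat.multinomial (Nat.primesBelow N) n.factorization ≤ j.factorial := by
    rw [← h1]
    exact Nat.le_mul_of_pos_left _ h2
  exact_mod_cast h3

/-- the function `1/n` -/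
noncomputable def invH : ℕ →* ℝ where
  toFun n := 1 / (n : ℝ)
  map_one' := by simp
  map_mul' m n := by push_cast; rw [one_div, one_div, one_div, mul_inv]

lemma Sj_sum_inv {N j Y : ℕ} (hY : N ^ j ≤ Y) :
    ∑ n ∈ Sj N j Y, (Nat.multinomial (Nat.primesBelow N) n.factorization : ℝ) / (n : ℝ) = R1 N ^ j := by
  have h := pow_id invH hY
  have e : ∑ p ∈ Nat.primesBelow N, invH p = R1 N := rfl
  rw [e] at h
  rw [h]
  refine sum_congr rfl fun n _ => ?_
  show _ = _ * (1 / (n : ℝ))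
  ring

lemma Sj_sum_one {N j Y : ℕ} (hY : N ^ j ≤ Y) :
    ∑ n ∈ Sj N j Y, (Nat.multinomial (Nat.primesBelow N) n.factorization : ℝ) ≤ (N : ℝ) ^ j := by
  have h := pow_id (1 : ℕ →* ℝ) hY
  simp only [MonoidHom.one_apply, mul_one, sum_const, nsmul_eq_mul] at h
  rw [← h]
  refine pow_le_pow_left₀ (Nat.cast_nonneg _) ?_ j
  have : (Nat.primesBelow N).card ≤ N := by
    calc (Nat.primesBelow N).card ≤ (range N).card := card_le_card (filter_subset _ _)
      _ = N := card_range N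
  exact_mod_cast this

open Classical in
/-- the coefficients of the power -/
noncomputable def aj (N j Y n : ℕ) : ℂ :=
  if n ∈ Sj N j Y then ((Nat.multinomial (Nat.primesBelow N) n.factorization : ℕ) : ℂ) else 0

lemma Sj_sub {N j Y : ℕ} : Sj N j Y ⊆ Icc 1 Y := by
  classical
  exact filter_subset _ _

lemma PS_pow_Dp {N j Y : ℕ} (hY : N ^ j ≤ Y) (t : ℝ) : PS N t ^ j = Dp (aj N j Y) Y (cl t) := by
  classical
  have h := pow_id (cpH (cl t)) hY
  have e : ∑ p ∈ Nat.primesBelow N, cpH (cl t) p = PS N t := rfl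
  rw [e] at h
  rw [h]
  unfold Dp
  rw [← sum_subset Sj_sub (fun n _ hn => by unfold aj; rw [if_neg hn, zero_mul])]
  refine sum_congr rfl fun n hn => ?_
  unfold aj
  rw [if_pos hn]
  rfl

lemma aj_norm {N j Y n : ℕ} (hn : n ∈ Sj N j Y) :
    ‖aj N j Y n‖ = (Nat.multinomial (Nat.primesBelow N) n.factorization : ℝ) := by
  classical
  unfold aj
  rw [if_pos hn, Complex.norm_natCast]

lemma aj_zero {N j Y n : ℕ} (hn : n ∉ Sj N j Y) : aj N j Y n = 0 := by
  classical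
  unfold aj
  rw [if_neg hn]

lemma moment (hM : P_MVC) {N j : ℕ} {T : ℝ} (hT : 0 ≤ T) :
    ∫ t in (T / 2)..(4 * T), ‖PS N t‖ ^ (2 * j) ≤ 4 * T * (j.factorial * R1 N ^ j) + 4 * (N : ℝ) ^ (3 * j) := by
  have hY : N ^ j ≤ N ^ j := le_rfl
  have h := hM (aj N j (N ^ j)) (N ^ j) (T / 2) (4 * T) (by linarith)
  have e : ∀ t : ℝ, ‖PS N t‖ ^ (2 * j) = ‖Dp (aj N j (N ^ j)) (N ^ j) (cl t)‖ ^ 2 := by
    intro t
    rw [← PS_pow_Dp hY t, norm_pow, ← pow_mul, mul_comm]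
  simp_rw [e]
  have h1 := (abs_le.mp h).2
  have s1 : ∑ n ∈ Icc 1 (N ^ j), ‖aj N j (N ^ j) n‖ ^ 2 / (n:ℝ) ≤ j.factorial * R1 N ^ j := by
    rw [← Sj_sum_inv hY, mul_sum, ← sum_subset Sj_sub (fun n _ hn => by rw [aj_zero hn]; simp)]
    refine sum_le_sum fun n hn => ?_
    rw [aj_norm hn, sq, mul_div_assoc]
    exact mul_le_mul_of_nonneg_right (mult_le hn) (by positivity)
  have s2 : ∑ n ∈ Icc 1 (N ^ j), ‖aj N j (N ^ j) n‖ ≤ (N : ℝ) ^ j := by
    refine le_trans (le_of_eq ?_) (Sj_sum_one hY)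
    rw [← sum_subset Sj_sub (fun n _ hn => by rw [aj_zero hn]; simp)]
    exact sum_congr rfl fun n hn => aj_norm hn
  have s3 : (∑ n ∈ Icc 1 (N ^ j), ‖aj N j (N ^ j) n‖) ^ 2 ≤ ((N : ℝ) ^ j) ^ 2 :=
    pow_le_pow_left₀ (sum_nonneg fun _ _ => norm_nonneg _) s2 2
  have hR : 0 ≤ (j.factorial : ℝ) * R1 N ^ j := mul_nonneg (Nat.cast_nonneg _) (pow_nonneg (R1_nonneg N) j)
  have b1 : (4 * T - T / 2) * ∑ n ∈ Icc 1 (N ^ j), ‖aj N j (N ^ j) n‖ ^ 2 / (n:ℝ) ≤
      4 * T * (j.factorial * R1 N ^ j) := by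
    calc _ ≤ (4 * T - T / 2) * (j.factorial * R1 N ^ j) := mul_le_mul_of_nonneg_left s1 (by linarith)
      _ ≤ _ := mul_le_mul_of_nonneg_right (by linarith) hR
  have b2 : 4 * ((N ^ j : ℕ) : ℝ) * (∑ n ∈ Icc 1 (N ^ j), ‖aj N j (N ^ j) n‖) ^ 2 ≤ 4 * (N : ℝ) ^ (3 * j) := by
    have e3 : 4 * (N : ℝ) ^ (3 * j) = 4 * (N:ℝ) ^ j * ((N : ℝ) ^ j) ^ 2 := by ring
    rw [e3]
    push_cast
    exact mul_le_mul_of_nonneg_left s3 (by positivity)
  linarith

lemma PS_cont (N : ℕ) : Continuous fun t : ℝ => PS N t := by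
  unfold PS
  refine continuous_finsetSum _ fun p hp => ?_
  have hp0 : (p : ℂ) ≠ 0 := by exact_mod_cast (Nat.prime_of_mem_primesBelow hp).ne_zero
  refine Continuous.const_cpow ?_ (Or.inl hp0)
  fun_prop

/-- facts about the first block -/
lemma ev_block : ∀ᶠ T : ℝ in atTop, R1 (y0 T) ≤ 2 * V T ∧ Real.log (y0 T) ≤ Real.log T / V T ^ 4 + 1 ∧
    1 ≤ Real.log T ∧ 1 ≤ y0 T := by
  obtain ⟨C, hC0, hC⟩ := R1_bd
  filter_upwards [ev_V (max C 1), ev_pow 4 (c := 1 / 2) (by norm_num), eventually_ge_atTop (Real.exp 1)]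
    with T h1 h2 h3
  have hT0 : 0 < T := (Real.exp_pos 1).trans_le h3
  have hV1 : 1 ≤ V T := (le_max_right _ _).trans h1
  have hVC : C ≤ V T := (le_max_left _ _).trans h1
  have hL1 : 1 ≤ Real.log T := by
    rw [Real.le_log_iff_exp_le hT0]; exact h3
  have hV4 : 0 < V T ^ 4 := by positivity
  have hx2 : 2 ≤ Real.log T / V T ^ 4 := by
    rw [le_div_iff₀ hV4]; linarith
  set x := Real.log T / V T ^ 4 with hx
  have hM3 : 3 ≤ ⌊Real.exp x⌋₊ := by
    rw [Nat.le_floor_iff (Real.exp_pos x).le]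
    have := Real.add_one_le_exp x
    push_cast
    linarith
  have hMle : (⌊Real.exp x⌋₊ : ℝ) ≤ Real.exp x := Nat.floor_le (Real.exp_pos x).le
  have hM0 : (0:ℝ) < (⌊Real.exp x⌋₊ : ℝ) := by exact_mod_cast (by omega : 0 < ⌊Real.exp x⌋₊)
  have hlM : Real.log (⌊Real.exp x⌋₊ : ℝ) ≤ x := by
    have := Real.log_le_log hM0 hMle
    rwa [Real.log_exp] at this
  have hM3' : (3:ℝ) ≤ (⌊Real.exp x⌋₊ : ℝ) := by exact_mod_cast hM3
  have hlM0 : 0 < Real.log (⌊Real.exp x⌋₊ : ℝ) := Real.log_pos (by linarith)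
  have hxL : x ≤ Real.log T := div_le_self (by linarith) (one_le_pow₀ hV1)
  refine ⟨?_, ?_, hL1, ?_⟩
  · have h5 := (abs_le.mp (hC _ hM3)).2
    have h6 : Real.log (Real.log (⌊Real.exp x⌋₊ : ℝ)) ≤ V T := Real.log_le_log hlM0 (hlM.trans hxL)
    unfold y0
    rw [← hx]
    linarith
  · unfold y0
    rw [← hx]
    push_cast
    have h5 : (⌊Real.exp x⌋₊ : ℝ) + 1 ≤ Real.exp (x + 1) := by
      rw [Real.exp_add]
      have h6 : 1 ≤ Real.exp x := Real.one_le_exp (by linarith)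
      have h7 : 2 ≤ Real.exp 1 := by
        have := Real.add_one_le_exp (1:ℝ); linarith
      nlinarith
    have h8 := Real.log_le_log (by linarith) h5
    rwa [Real.log_exp] at h8
  · unfold y0; omega

theorem t_TINY (hM : P_MVC) : P_TINY := by
  unfold P_TINY
  filter_upwards [ev_block, ev_V (6400 * Real.exp 4), ev_V 100, ev_pow 2 (c := 1 / 40) (by norm_num),
    eventually_ge_atTop (64:ℝ), Real.tendsto_log_atTop.eventually_ge_atTop 8] with T hb hV1 hV2 hV3 hT64 hL8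
  obtain ⟨hR, hlN, hL1, hN1⟩ := hb
  have hT0 : 0 < T := by linarith
  have hVpos : 0 < V T := by linarith
  set N := y0 T with hN
  set j := d0 T with hj
  set W := V T with hW
  set L := Real.log T with hL
  have hN0 : (0:ℝ) < N := by exact_mod_cast hN1
  have hj1 : W ^ 2 ≤ (j:ℝ) := Nat.le_ceil _
  have hj2 : (j:ℝ) ≤ 2 * W ^ 2 := by
    have := Nat.ceil_lt_add_one (show 0 ≤ V T ^ 2 by positivity)
    have h1 : (j:ℝ) ≤ W ^ 2 + 1 := this.le
    nlinarith
  have hjpos : 1 ≤ j := by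
    have : (0:ℝ) < j := by nlinarith
    exact_mod_cast this
  have hjpos' : (1:ℝ) ≤ j := by exact_mod_cast hjpos
  -- the second term
  have hN3 : 4 * (N:ℝ) ^ (3 * j) ≤ T := by
    have h1 : (N:ℝ) ^ (3 * j) ≤ Real.exp (L / 2) := by
      rw [← Real.log_le_iff_le_exp (by positivity), Real.log_pow]
      push_cast
      have hW4 : 0 < W ^ 4 := by positivity
      have h2 : 3 * (j:ℝ) * Real.log N ≤ 3 * (2 * W ^ 2) * (L / W ^ 4 + 1) := by
        have : 0 ≤ Real.log N := Real.log_nonneg (by exact_mod_cast hN1)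
        refine mul_le_mul (by linarith) hlN this (by positivity)
      have h3 : 3 * (2 * W ^ 2) * (L / W ^ 4 + 1) = 6 * L / W ^ 2 + 6 * W ^ 2 := by
        field_simp
        ring
      have h4 : 6 * L / W ^ 2 ≤ L / 100 := by
        rw [div_le_div_iff₀ (by positivity) (by norm_num)]
        have hW2 : 10000 ≤ W ^ 2 := by nlinarith
        have := mul_le_mul_of_nonneg_left hW2 (by linarith : 0 ≤ L)
        linarith
      rw [h3] at h2
      linarith
    have h5 : Real.exp (L / 2) * Real.exp (L / 2) = T := by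
      rw [← Real.exp_add, add_halves, Real.exp_log hT0]
    have h6 : 4 ≤ Real.exp (L / 2) := by
      have := Real.add_one_le_exp (L / 2)
      linarith
    nlinarith [Real.exp_pos (L / 2)]
  -- the moment
  have hmom := moment hM (N := N) (j := j) hT0.le
  have hfac : (j.factorial : ℝ) ≤ (j:ℝ) ^ j := by exact_mod_cast Nat.factorial_le_pow j
  have hRj : R1 N ^ j ≤ (2 * W) ^ j := pow_le_pow_left₀ (R1_nonneg N) hR j
  have hbig : (j.factorial : ℝ) * R1 N ^ j ≤ (2 * W * j) ^ j := by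
    calc (j.factorial : ℝ) * R1 N ^ j ≤ (j:ℝ) ^ j * (2 * W) ^ j :=
          mul_le_mul hfac hRj (pow_nonneg (R1_nonneg N) j) (by positivity)
      _ = (2 * W * j) ^ j := by rw [mul_pow (2 * W) (j:ℝ) j]; ring
  have hone : 1 ≤ (2 * W * j) ^ j := one_le_pow₀ (by nlinarith)
  have hI : ∫ t in (T / 2)..(4 * T), ‖PS N t‖ ^ (2 * j) ≤ 5 * T * (2 * W * j) ^ j := by
    have h1 : 4 * T * (j.factorial * R1 N ^ j) ≤ 4 * T * (2 * W * j) ^ j :=
      mul_le_mul_of_nonneg_left hbig (by positivity)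
    have h2 : T ≤ T * (2 * W * j) ^ j := le_mul_of_one_le_right hT0.le hone
    linarith
  -- Markov
  set ε : ℝ := (W ^ 2 / 40) ^ (2 * j) with hε
  have hεpos : 0 < ε := by positivity
  have hcont : Continuous fun t : ℝ => ‖PS N t‖ ^ (2 * j) := ((PS_cont N).norm).pow _
  have hint : Integrable (fun t : ℝ => ‖PS N t‖ ^ (2 * j)) (volume.restrict (Set.Icc (T / 2) (4 * T))) :=
    (hcont.continuousOn.integrableOn_Icc)
  have hmk := mul_meas_ge_le_integral_of_nonneg (μ := volume.restrict (Set.Icc (T / 2) (4 * T)))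
    (f := fun t : ℝ => ‖PS N t‖ ^ (2 * j)) (Filter.Eventually.of_forall fun t => by positivity) hint ε
  have hint2 : ∫ t, ‖PS N t‖ ^ (2 * j) ∂(volume.restrict (Set.Icc (T / 2) (4 * T))) =
      ∫ t in (T / 2)..(4 * T), ‖PS N t‖ ^ (2 * j) := by
    rw [intervalIntegral.integral_of_le (by linarith), integral_Icc_eq_integral_Ioc]
  rw [hint2] at hmk
  have hset : volume.real {t : ℝ | t ∈ Set.Icc (T / 2) (4 * T) ∧ W ^ 2 / 40 < ‖PS N t‖} ≤
      (volume.restrict (Set.Icc (T / 2) (4 * T))).real {t : ℝ | ε ≤ ‖PS N t‖ ^ (2 * j)} := by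
    rw [measureReal_restrict_apply' measurableSet_Icc]
    refine measureReal_mono ?_ ?_
    · rintro t ⟨h1, h2⟩
      exact ⟨pow_le_pow_left₀ (by positivity) h2.le _, h1⟩
    · refine ne_top_of_le_ne_top ?_ (measure_mono Set.inter_subset_right)
      simp
  have hfin : volume.real {t : ℝ | t ∈ Set.Icc (T / 2) (4 * T) ∧ W ^ 2 / 40 < ‖PS N t‖} ≤
      (5 * T * (2 * W * j) ^ j) / ε := by
    rw [le_div_iff₀ hεpos, mul_comm]
    calc _ ≤ ε * (volume.restrict (Set.Icc (T / 2) (4 * T))).real {t : ℝ | ε ≤ ‖PS N t‖ ^ (2 * j)} :=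
          mul_le_mul_of_nonneg_left hset hεpos.le
      _ ≤ _ := hmk.trans hI
  refine hfin.trans ?_
  have e1 : (5 * T * (2 * W * j) ^ j) / ε = 5 * T * (2 * W * j / (W ^ 2 / 40) ^ 2) ^ j := by
    rw [hε, pow_mul, mul_div_assoc, ← div_pow]
  rw [e1]
  have h1 : 2 * W * j / (W ^ 2 / 40) ^ 2 ≤ Real.exp (-4) := by
    rw [div_le_iff₀ (by positivity), Real.exp_neg]
    have he : 0 < Real.exp 4 := Real.exp_pos 4
    have h2 : 2 * W * j ≤ 2 * W * (2 * W ^ 2) := mul_le_mul_of_nonneg_left hj2 (by positivity)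
    have h3 : (Real.exp 4)⁻¹ * (W ^ 2 / 40) ^ 2 = (W ^ 3 * (W / (1600 * Real.exp 4))) := by
      field_simp
      ring
    rw [h3]
    have h4 : 4 ≤ W / (1600 * Real.exp 4) := by
      rw [le_div_iff₀ (by positivity)]
      linarith
    have h5 : W ^ 3 * 4 ≤ W ^ 3 * (W / (1600 * Real.exp 4)) := mul_le_mul_of_nonneg_left h4 (by positivity)
    calc 2 * W * j ≤ 2 * W * (2 * W ^ 2) := h2
      _ = W ^ 3 * 4 := by ring
      _ ≤ _ := h5
  have h2 : (2 * W * j / (W ^ 2 / 40) ^ 2) ^ j ≤ Real.exp (-(4 * W ^ 2)) := by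
    calc (2 * W * j / (W ^ 2 / 40) ^ 2) ^ j ≤ Real.exp (-4) ^ j := pow_le_pow_left₀ (by positivity) h1 j
      _ = Real.exp (j * (-4)) := by rw [Real.exp_nat_mul]
      _ ≤ _ := Real.exp_le_exp.mpr (by linarith)
  have h3 : 5 * Real.exp (-(4 * W ^ 2)) ≤ Real.exp (-(2 * W ^ 2)) := by
    have h4 : Real.exp (-(2 * W ^ 2)) = Real.exp (-(4 * W ^ 2)) * Real.exp (2 * W ^ 2) := by
      rw [← Real.exp_add]; congr 1; ring
    have h5 : 5 ≤ Real.exp (2 * W ^ 2) := by
      have := Real.add_one_le_exp (2 * W ^ 2)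
      nlinarith
    rw [h4]
    nlinarith [Real.exp_pos (-(4 * W ^ 2))]
  calc 5 * T * (2 * W * j / (W ^ 2 / 40) ^ 2) ^ j ≤ 5 * T * Real.exp (-(4 * W ^ 2)) :=
        mul_le_mul_of_nonneg_left h2 (by positivity)
    _ = T * (5 * Real.exp (-(4 * W ^ 2))) := by ring
    _ ≤ _ := mul_le_mul_of_nonneg_left h3 hT0.le

end Pool.Agent.Q251.CD
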