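import Pool.Agent.Q276.CD.Stm2
import Pool.Agent.TH321.GF.AQ

set_option autoImplicit false

/-! Project CD, lemma job ZN. -/

namespace Pool.Agent.Q251.CD

open Pool.Agent.Q276.CD Complex

theorem t_ZN : P_ZN := by
  refine ⟨40, by norm_num, fun T hT t ht => ?_⟩
  obtain ⟨ht1, ht2⟩ := ht
  have hT0 : 0 < T := by linarith
  have hX8 : 8 * T ≤ (NN T : ℝ) := Nat.le_ceil _
  have hX9 : (NN T : ℝ) ≤ 9 * T := by
    have := Nat.ceil_lt_add_one (show 0 ≤ 8 * T by linarith)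
    unfold NN
    linarith
  have hX1 : 1 ≤ NN T := by
    have : (1:ℝ) ≤ (NN T : ℝ) := by linarith
    exact_mod_cast this
  have h := Pool.Agent.TH321.GF.AQ_pw t (NN T) hX1 (by linarith) (by linarith)
  have e1 : Pool.Agent.TH612.GS.z t - Pool.Agent.TH612.GS.PN (NN T) t = riemannZeta (cl t) - ZZ T (cl t) := by
    unfold Pool.Agent.TH612.GS.z Pool.Agent.TH612.GS.PN Pool.Agent.TH612.GS.zN ZZ Dp cl
    rw [mul_comm I (t : ℂ)]
    simp only [one_mul]
  rw [← e1]
  refine h.trans ?_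
  have hs0 : 0 < Real.sqrt T := Real.sqrt_pos.2 hT0
  have hss : Real.sqrt T * Real.sqrt T = T := Real.mul_self_sqrt hT0.le
  have e2 : T ^ (-(1:ℝ) / 2) = 1 / Real.sqrt T := by
    rw [Real.sqrt_eq_rpow, one_div, ← Real.rpow_neg hT0.le]
    congr 1
    ring
  rw [e2]
  have h3 : Real.sqrt (NN T) ≤ 3 * Real.sqrt T := by
    rw [Real.sqrt_le_left (by positivity)]
    nlinarith
  have h4 : Real.sqrt T ≤ Real.sqrt (NN T) := Real.sqrt_le_sqrt (by linarith)
  have b1 : 3 * Real.sqrt (NN T) / (1 + t) ≤ 36 / Real.sqrt T := by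
    rw [div_le_div_iff₀ (by linarith) hs0]
    nlinarith
  have b2 : 3 / (2 * Real.sqrt (NN T)) ≤ 4 / Real.sqrt T := by
    rw [div_le_div_iff₀ (by linarith) hs0]
    linarith
  have e3 : 40 * (1 / Real.sqrt T) = 36 / Real.sqrt T + 4 / Real.sqrt T := by ring
  linarith

end Pool.Agent.Q251.CD
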